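import Mathlib

/-!
# The p-adic Subspace Theorem over the rationals: shared definitions

* places: `none` is the archimedean place, `some p` the `p`-adic one;
* `absV v x` is the absolute value of an integer `x` at `v`;
* `InBox P A c Q x`: the integer vector `x` satisfies `|(A_v x)_i|_v <= Q ^ (c v i)` for every
  place `v` of `P` and `none`;
* `subst B`: the block linear substitution `X (h,i) => sum_s B h i s X (h,s)`;
* `IsMultiHom F r`: every monomial of `F` has degree `r h` in the block `h`;
* `shift xi f`: the polynomial `f (xi + Y)` over the rationals;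
* `compound p A`: the matrix of the `p` by `p` minors of `A`.
-/

namespace Helper57.SST

open MvPolynomial Matrix

/-- The absolute value of an integer at the place `v`. -/
noncomputable def absV (v : Option ℕ) (x : ℤ) : ℝ :=
  match v with
  | none => |(x : ℝ)|
  | some p => ((padicNorm p (x : ℚ) : ℚ) : ℝ)

/-- The set of places attached to a finite set of primes. -/
def places (P : Finset ℕ) : Finset (Option ℕ) := Finset.insertNone P

/-- The adelic box. -/
def InBox (P : Finset ℕ) {ι : Type*} [Fintype ι] (A : Option ℕ → Matrix ι ι ℤ)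
    (c : Option ℕ → ι → ℝ) (Q : ℝ) (x : ι → ℤ) : Prop :=
  ∀ v ∈ places P, ∀ i, absV v ((A v *ᵥ x) i) ≤ Q ^ (c v i)

/-- Block linear substitution `X (h,i) => sum_s B h i s X (h,s)`. -/
noncomputable def subst {R : Type*} [CommRing R] {M : ℕ} {ι κ : Type*} [Fintype κ]
    (B : Fin M → Matrix ι κ R) :
    MvPolynomial (Fin M × ι) R →ₐ[R] MvPolynomial (Fin M × κ) R :=
  MvPolynomial.aeval (fun hi => ∑ s, C (B hi.1 hi.2 s) * X (hi.1, s))

/-- Multihomogeneous of degree `r h` in the block `h`. -/
def IsMultiHom {R : Type*} [CommRing R] {M : ℕ} {ι : Type*} [Fintype ι]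
    (F : MvPolynomial (Fin M × ι) R) (r : Fin M → ℕ) : Prop :=
  ∀ e ∈ F.support, ∀ h, ∑ i, e (h, i) = r h

/-- The polynomial `f (xi + Y)`. -/
noncomputable def shift {M : ℕ} (ξ : Fin M → ℚ) (f : MvPolynomial (Fin M) ℤ) :
    MvPolynomial (Fin M) ℚ :=
  MvPolynomial.aeval (fun h => X h + C (ξ h)) f

/-- The matrix of the `p` by `p` minors. -/
def compound {R : Type*} [CommRing R] {α β : Type*} [LinearOrder α] [LinearOrder β] (p : ℕ)
    (A : Matrix α β R) : Matrix (Fin p ↪o α) (Fin p ↪o β) R :=
  Matrix.of fun I J => (A.submatrix I J).det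

/-- The cofactor vector of `n` vectors in dimension `n + 1`. -/
def cofac {R : Type*} [CommRing R] {n : ℕ} (g : Fin n → Fin (n + 1) → R) : Fin (n + 1) → R :=
  fun l => (Matrix.of (Fin.cons (Pi.single l 1) g : Fin (n + 1) → Fin (n + 1) → R)).det

end Helper57.SST
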